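import Pool.Agent.Helper28.OHS.Goals
import Pool.Agent.Helper65.OH.GEO
import Pool.Agent.Helper75.OH.STEP

/-!
# Packet SLC: the steps in a cube, completeness
-/

namespace Pool.Agent.Helper31.OHS

open Pool.Agent.Helper65.LinSpace Pool.Agent.Helper78.Mpc Pool.Agent.Helper28.Ram Finset
open Pool.Agent.Helper65.OH Pool.Agent.Helper53.OH
open Pool.Agent.Helper94.OH2 (QQ sv_lt sv_same)
open Pool.Agent.Helper28.OHS

theorem rn_succ (m : Prm) (b z n : ℕ) : rn m b z (n + 1) = m.loc b (rn m b z n) := rfl

theorem ct_succ (m : Prm) (b z n : ℕ) :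
    ct m b z (n + 1) = ct m b z n + act m b (rn m b z n) := by
  unfold ct
  rw [sum_range_succ]

theorem act_ne {m : Prm} {b z : ℕ} (h : m.blk (z % 2 ^ m.sg) ≠ b) : act m b z = 0 := by
  unfold act
  rw [eq01_ne h, zero_mul]

theorem act_one {m : Prm} {b z : ℕ} (h : m.blk (z % 2 ^ m.sg) = b)
    (h0 : accN (m.wq (z % 2 ^ m.sg)) = 0) : act m b z = 1 := by
  unfold act
  rw [h, h0]
  simp [eq01]

/-- SLC. -/
theorem SLC (hG : GEO_stmt) (hS : STEP_stmt) : SLC_stmt := by
  intro D A eA eN eW c w y m hP ho hF b t z r h0 hz hfit hbx hna n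
  induction n with
  | zero =>
    intro _
    exact ⟨h0, fun i h1 h2 => absurd h2 (by simp [ct]; omega), Or.inl (by simp [ct]), hz,
      fun _ => rfl⟩
  | succ n ih =>
    intro hn
    obtain ⟨h1, h2, h3, h4, h5⟩ := ih (by omega)
    rw [rn_succ, ct_succ, loc_eq]
    set Z := rn m b z n with hZ
    set k := ct m b z n with hk
    obtain ⟨hblk, -, -⟩ := hG.blk m _ _ hP.h_D h1.good
    by_cases hb : m.blk (Z % 2 ^ m.sg) = b
    · rw [if_pos hb]
      have hkn : k = n := by
        rcases h3 with h3 | h3
        · exact h3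
        · exact absurd (hblk.symm.trans hb) h3
      have hacc : ¬A.AcceptsAt w y (t + k) := hna (t + k) (by omega) (by omega)
      have hact : act m b Z = 1 := by
        refine act_one hb ?_
        rw [h1.good.wq]
        exact accN_zero_of hacc
      rw [hact]
      obtain ⟨g1, g2⟩ := step_ok hG hS hP ho hF h1.good hb h1.dg hacc
      obtain ⟨f1, f2, f3⟩ := hfit (t + k) (by omega)
      obtain ⟨f4, -, f6⟩ := hfit (t + k + 1) (by omega)
      have f7 := f6 (A.conf w y (t + k)).h
      have e1 : (A.conf w y (t + k + 1)).M (A.conf w y (t + k)).h =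
          A.write (A.inp w y (A.conf w y (t + k)).q
            ((A.conf w y (t + k)).M (A.conf w y (t + k)).h)) :=
        Function.update_self _ _ _
      rw [e1] at f7
      have hok := g2 f2 (f3 _) f4 f7 (hbx (t + k + 1) (by omega))
      rcases g1 with ⟨k1, -⟩ | ⟨-, k2, k3, k4⟩
      · exact absurd k1 hok
      · refine ⟨⟨by omega, ?_, ?_, ?_⟩, ?_, Or.inl (by omega), ?_, ?_⟩
        · rw [(split_lt k2.lt).1]
          exact k2
        · rw [(split_lt k2.lt).2]
          exact k3
        · intro x hx hxb
          rw [← add_assoc, conf_succ, k4 x hx hxb]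
          exact h1.out x hx hxb
        · intro i hi1 hi2
          rcases Nat.lt_or_ge i (t + k) with h | h
          · exact h2 i hi1 h
          · have : i = t + k := by omega
            subst this
            rw [← hblk, hb]
        · rw [(split_lt k2.lt).2]
          exact sv_lt m _ _ h4
        · intro hch
          rw [(split_lt k2.lt).2]
          have h6 := h5 fun v hv1 hv2 => hch v hv1 (by omega)
          have h7 : (A.step w y (A.conf w y (t + k))).M = (A.conf w y (t + k)).M :=
            hch (t + k) (by omega) (by omega)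
          rw [sv_same hG hS hP ho hF h1.good hb h1.dg hacc hok (f3 _) h7 h4]
          exact h6
    · rw [if_neg hb, act_ne hb, add_zero]
      exact ⟨h1, h2, Or.inr fun h => hb (hblk.trans h), h4, h5⟩

/-- SLC, without hypotheses. -/
theorem slc : SLC_stmt := SLC GEO (Pool.Agent.Helper75.OH.STEP GEO)

end Pool.Agent.Helper31.OHS
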